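import Pool.Agent.Work.MP_eac634_nt.Hedge.Lower

namespace Pool.Agent.Results.MP_eac634_nt.Additive

open Pool.Agent.Work.MP_eac634_nt

/-- For every base `b ≥ 2` the constant `K_b` equals, up to the absolute additive constant
`10 ^ 8`, the least `g` such that every `n < b` is a sum of at most `g` numbers `u` with `u` or
`u - 1` coprime to `b`. -/
theorem result : ∀ b : ℕ, 2 ≤ b → ∃ K g : ℕ,
    IsLeast {k : ℕ | 2 ≤ k ∧ ∃ N₀ : ℕ, ∀ N : ℕ, N₀ ≤ N → IsSumOfRevPrimes b k N} K ∧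
      IsLeast {k : ℕ | ∀ n < b, IsSumOfU b k n} g ∧ g ≤ K ∧ K ≤ g + 10 ^ 8 :=
  fun _ hb => additive_bounds hb

end Pool.Agent.Results.MP_eac634_nt.Additive
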