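import Pool.Agent.Work.MP_eac634_nt.Main

namespace Pool.Agent.Results.MP_eac634_nt.LogBound

open Pool.Agent.Work.MP_eac634_nt

/-- There is an absolute constant `C > 0` such that for every base `b ≥ 2` the least `K ≥ 2` for
which every sufficiently large integer is a sum of at most `K` reversed primes in base `b`
exists and is at most `C log b`. -/
theorem result : ∃ C : ℝ, 0 < C ∧ ∀ b : ℕ, 2 ≤ b → ∃ K : ℕ,
    IsLeast {k : ℕ | 2 ≤ k ∧ ∃ N₀ : ℕ, ∀ N : ℕ, N₀ ≤ N → IsSumOfRevPrimes b k N} K ∧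
      (K : ℝ) ≤ C * Real.log b := by
  obtain ⟨C, hC, h⟩ := exists_bound
  refine ⟨C, hC, fun b hb => ?_⟩
  obtain ⟨K, h1, h2, h3⟩ := h b hb
  have hK : K ∈ {k : ℕ | 2 ≤ k ∧ ∃ N₀ : ℕ, ∀ N : ℕ, N₀ ≤ N → IsSumOfRevPrimes b k N} :=
    ⟨h1, Filter.eventually_atTop.1 h3⟩
  refine ⟨sInf _, ⟨Nat.sInf_mem ⟨K, hK⟩, fun k hk => Nat.sInf_le hk⟩, le_trans ?_ h2⟩
  exact_mod_cast Nat.sInf_le hK

end Pool.Agent.Results.MP_eac634_nt.LogBound
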