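import Pool.Agent.Work.MP_eac634_nt.Hedge.Sharp

namespace Pool.Agent.Results.MP_eac634_nt.SharpConstant

open Pool.Agent.Work.MP_eac634_nt

/-- The upper limit of `K_b / log b` as the base `b` tends to infinity is exactly `1 / 2`. -/
theorem result :
    Filter.limsup (fun b : ℕ => Kb b / ENNReal.ofReal (Real.log b)) Filter.atTop = 1 / 2 :=
  limsup_Kb

end Pool.Agent.Results.MP_eac634_nt.SharpConstant
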